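import Mathlib
import Pool.Agent.X73.CF.Compat

set_option autoImplicit false

/-!
# `c(F) ≤ 1` for graphs whose blocks are bipartite graphs or odd cycles

If a proper `3`-colouring of `F` uses the first colour at most once in each piece of a tree-like
decomposition, then `F` is a tree-like gluing of pieces of `K_{1,t,t}` in a compatible way, and the
loss is only the size of the glued sets.  For blocks that are bipartite, or become bipartite when
any one vertex is deleted, such a colouring can be found block by block: the colour of the cut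
vertex is prescribed, and every such block has a colouring of this kind that extends it.
-/

namespace Pool.Agent.Results.MP_349e33_co.BipartiteOrOddCycleBlocks

open Pool.Agent.TH855

/-- `Glued F k P Q`: the vertices and the edges of `F` are covered by finitely many sets
`B 0, …, B (m - 1)` of vertices (the pieces), each with the property `P`, such that every piece
`B i` with `i > 0` meets the union of the earlier pieces inside one earlier piece `B j`, and either
is contained in `B j`, or has at most `k` vertices in common with it and the set of these common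
vertices is empty or has the property `Q`. -/
def Glued {W : Type} (F : SimpleGraph W) (k : ℕ) (P Q : Set W → Prop) : Prop :=
  ∃ (m : ℕ) (B : ℕ → Set W), (∀ w, ∃ i < m, w ∈ B i) ∧
    (∀ a b, F.Adj a b → ∃ i < m, a ∈ B i ∧ b ∈ B i) ∧ (∀ i < m, P (B i)) ∧
    ∀ i < m, 0 < i → ∃ j < i, (∀ l < i, B i ∩ B l ⊆ B j) ∧
      (B i ⊆ B j ∨ (B i ∩ B j).ncard ≤ k ∧ (B i ∩ B j = ∅ ∨ Q (B i ∩ B j)))

/-- `F[B]` is bipartite, or becomes bipartite when any one vertex is deleted (for instance, `F[B]`
is an odd cycle). -/
def Crit {W : Type} (F : SimpleGraph W) (B : Set W) : Prop :=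
  (F.induce B).Colorable 2 ∨ ∀ v ∈ B, (F.induce (B \ {v})).Colorable 2

/-- `Built F k S`: the vertex set `S` is obtained from the empty set by successively adding sets `B`
of vertices with `Crit F B`, such that `B` meets the union of the earlier sets in a clique of at
most `k` vertices, and all edges of `F` between `B` and this union lie inside `B`. For `k = 1` and
`S` the set of all vertices this says that `Crit F B` holds for every block `B` of `F`. -/
inductive Built {W : Type} (F : SimpleGraph W) (k : ℕ) : Set W → Prop
  | empty : Built F k ∅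
  | glue (S B : Set W) : Built F k S → (S ∩ B).ncard ≤ k → F.IsClique (S ∩ B) →
      (∀ x ∈ S \ B, ∀ y ∈ B \ S, ¬ F.Adj x y) → Crit F B → Built F k (S ∪ B)

theorem built_iff {W : Type} (F : SimpleGraph W) (k : ℕ) (S : Set W) (h : Built F k S) :
    Pool.Agent.X73.CF.Built F k S := by
  induction h with
  | empty => exact .empty
  | glue S B _ h1 h2 h3 h4 ih => exact .glue S B ih h1 h2 h3 h4

theorem glued_bound {W : Type} [Fintype W] (F : SimpleGraph W) (C : F.Coloring (Fin 3)) (k : ℕ)
    (hk : 1 ≤ k)
    (hF : Glued F k (fun B => {w | w ∈ B ∧ C w = 0}.Subsingleton)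
      (fun T => T.ncard = 1 ∨ ∃ a ∈ T, ∃ b ∈ T, C a ≠ C b)) : c F ≤ k := by
  obtain ⟨m, B, h1, h2, h3, h4⟩ := hF
  refine Pool.Agent.X73.CF.compat F C k hk (fun a b hab => C.valid hab) m B h1 h2 ?_ ?_
  · intro i hi a ha b hb ha0 hb0
    exact h3 i hi ⟨ha, ha0⟩ ⟨hb, hb0⟩
  · intro i hi
    rcases Nat.eq_zero_or_pos i with h0 | h0
    · left
      intro l hl
      omega
    · obtain ⟨j, hj, h5, h6⟩ := h4 i hi h0
      rcases h6 with h6 | ⟨h6, h7 | h7 | h7⟩
      · exact Or.inr ⟨j, hj, h5, Or.inl h6⟩
      · left
        intro l hl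
        rw [Set.disjoint_left]
        intro w hw hwl
        have h8 : w ∈ B i ∩ B j := ⟨hw, h5 l hl ⟨hw, hwl⟩⟩
        rw [h7] at h8
        exact h8
      · exact Or.inr ⟨j, hj, h5, Or.inr ⟨h6, Or.inl (Set.ncard_eq_one.1 h7)⟩⟩
      · exact Or.inr ⟨j, hj, h5, Or.inr ⟨h6, Or.inr h7⟩⟩

theorem one_bound {W : Type} [Fintype W] (F : SimpleGraph W) (X : Set W)
    (hb : (F.induce Xᶜ).Colorable 2)
    (hF : Glued F 1 (fun B => (B ∩ X).Subsingleton) (fun _ => True)) : c F ≤ 1 := by
  classical
  obtain ⟨f, hf⟩ := Pool.Agent.X73.CF.two_col hb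
  obtain ⟨m, B, h1, h2, h3, h4⟩ := hF
  set κ : W → Fin 3 := fun w => if w ∈ X then 0 else if f w = true then 1 else 2 with hκdef
  have hκ : ∀ a b, F.Adj a b → κ a ≠ κ b := by
    intro a b hab
    have key1 : ∀ x : Bool, (0 : Fin 3) ≠ if x = true then 1 else 2 := by decide
    by_cases ha : a ∈ X
    · by_cases hb' : b ∈ X
      · obtain ⟨i, hi, hai, hbi⟩ := h2 a b hab
        exact absurd (h3 i hi ⟨hai, ha⟩ ⟨hbi, hb'⟩) hab.ne
      · simp only [hκdef, if_pos ha, if_neg hb']
        exact key1 _
    · by_cases hb' : b ∈ X
      · simp only [hκdef, if_neg ha, if_pos hb']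
        exact (key1 _).symm
      · simp only [hκdef, if_neg ha, if_neg hb']
        have key : ∀ x y : Bool, x ≠ y →
          (if x = true then (1 : Fin 3) else 2) ≠ (if y = true then (1 : Fin 3) else 2) := by decide
        exact key _ _ (hf a ha b hb' hab)
  have h0 : ∀ w, κ w = 0 → w ∈ X := by
    intro w hw
    by_contra hwX
    simp only [hκdef, if_neg hwX] at hw
    have key1 : ∀ x : Bool, ¬ ((if x = true then (1 : Fin 3) else 2) = 0) := by decide
    exact key1 _ hw
  have h := glued_bound F (SimpleGraph.Coloring.mk κ (fun {a b} hab => hκ a b hab)) 1 le_rfl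
    ⟨m, B, h1, h2, fun i hi a ha b hb => h3 i hi ⟨ha.1, h0 a ha.2⟩ ⟨hb.1, h0 b hb.2⟩, ?_⟩
  · exact_mod_cast h
  · intro i hi hi0
    obtain ⟨j, hj, h5, h6⟩ := h4 i hi hi0
    refine ⟨j, hj, h5, ?_⟩
    rcases h6 with h6 | ⟨h6, -⟩
    · exact Or.inl h6
    · refine Or.inr ⟨h6, ?_⟩
      rcases Nat.le_one_iff_eq_zero_or_eq_one.1 h6 with h7 | h7
      · left
        rwa [Set.ncard_eq_zero (Set.toFinite _)] at h7
      · exact Or.inr (Or.inl h7)

/-- (1) Let `C` be a proper `3`-colouring of the finite graph `F`. If `F` is composed in a tree-like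
way, along sets of at most `k` vertices, of pieces each containing at most one vertex of colour `0`,
and each nonempty set along which one glues consists of one vertex or contains vertices of two
different colours, then `c(F) ≤ k`. (2) If `X` is a set of vertices such that `F - X` is bipartite,
and `F` is composed in a tree-like way, along single vertices (and disjoint unions), of pieces (for
instance the blocks of `F`) each containing at most one vertex of `X`, then `c(F) ≤ 1`. (3) If every
block of `F` is bipartite or becomes bipartite when any one vertex is deleted (for instance, if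
every block is a bipartite graph or an odd cycle), then `c(F) ≤ 1`. (4) If `F` is obtained from such
blocks by gluing along vertices and edges, then `c(F) ≤ 2`. -/
theorem result :
    (∀ (W : Type) [Fintype W] (F : SimpleGraph W) (C : F.Coloring (Fin 3)) (k : ℕ), 1 ≤ k →
      Glued F k (fun B => {w | w ∈ B ∧ C w = 0}.Subsingleton)
        (fun T => T.ncard = 1 ∨ ∃ a ∈ T, ∃ b ∈ T, C a ≠ C b) → c F ≤ k) ∧
    (∀ (W : Type) [Fintype W] (F : SimpleGraph W) (X : Set W), (F.induce Xᶜ).Colorable 2 →
      Glued F 1 (fun B => (B ∩ X).Subsingleton) (fun _ => True) → c F ≤ 1) ∧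
    (∀ (W : Type) [Fintype W] (F : SimpleGraph W), Built F 1 Set.univ → c F ≤ 1) ∧
    (∀ (W : Type) [Fintype W] (F : SimpleGraph W), Built F 2 Set.univ → c F ≤ 2) := by
  refine ⟨?_, ?_, ?_, ?_⟩
  · intro W _ F C k hk hF
    exact glued_bound F C k hk hF
  · intro W _ F X hb hF
    exact one_bound F X hb hF
  · intro W _ F h
    have := Pool.Agent.X73.CF.built_bound F 1 le_rfl (by omega) (built_iff F 1 _ h)
    exact_mod_cast this
  · intro W _ F h
    have := Pool.Agent.X73.CF.built_bound F 2 (by omega) le_rfl (built_iff F 2 _ h)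
    exact_mod_cast this

end Pool.Agent.Results.MP_349e33_co.BipartiteOrOddCycleBlocks
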