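import Mathlib
import Pool.Agent.X67.CR.TW

set_option autoImplicit false

/-!
# `c(F)` is at most a constant times `c(H)` if `F` is homomorphic to a `2`-connected graph `H`
-/

namespace Pool.Agent.Results.MP_349e33_co.ReductionToCliques

open Pool.Agent.TH855 Pool.Agent.X67.CR
open scoped ENNReal

/-- `H` has at least three vertices, is connected and remains connected when any one vertex is
deleted -/
def TwoConnected {U : Type} [Fintype U] (H : SimpleGraph U) : Prop :=
  3 ≤ Fintype.card U ∧ H.Connected ∧ ∀ u, (H.induce {v | v ≠ u}).Connected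

theorem TwoConnected.surrounded {U : Type} [Fintype U] {H : SimpleGraph U} (h : TwoConnected H) :
    Surrounded H (Fintype.card U - 1) := by
  refine ⟨h.2.1, fun u => ?_⟩
  have h3 : ({v | v ≠ u} : Set U).ncard = Fintype.card U - 1 := by
    have h1 : ({v | v ≠ u} : Set U) = {u}ᶜ := rfl
    rw [h1, Set.ncard_compl, Set.ncard_singleton, Nat.card_eq_fintype_card]
  have h2 := h.1
  refine ⟨{v | v ≠ u}, ?_, fun h => h rfl, by rw [h3]; omega, h3.le, h.2.2 u⟩
  intro v hv he
  rw [he] at hv
  exact H.loopless.irrefl _ hv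

theorem clique_twoConnected (r : ℕ) (hr : 3 ≤ r) : TwoConnected (⊤ : SimpleGraph (Fin r)) := by
  have : Nonempty (Fin r) := ⟨⟨0, by omega⟩⟩
  have : Nontrivial (Fin r) := Fin.nontrivial_iff_two_le.2 (by omega)
  refine ⟨by rw [Fintype.card_fin]; exact hr, SimpleGraph.connected_top, fun u => ?_⟩
  obtain ⟨v, hv⟩ := exists_ne u
  exact top_induce_connected _ ⟨v, hv⟩

/-- (1) Let `H` be a finite connected graph such that every vertex `u` of `H` has a connected set
of at least two and at most `d` vertices that contains all neighbours of `u` but not `u`, and let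
`f` be a homomorphism from a finite graph `F` to `H` such that all vertices `w` of `F` with
`f w ≠ u₀` have degree at most `k`. Then `c(F) ≤ (k + d) ^ (|H| - 1) * d * c(H)`. (2) If `F` has
treewidth at most `w`, then `c(F) ≤ (w + |H|) * (d (w + 3)) ^ (|H| - 1) * d * c(H)`. (3) If `H` is
`2`-connected, (1) and (2) apply with `d = |H| - 1`, and all finite graphs `F` that are
homomorphic to `H` satisfy `c(F) < ∞` if and only if `c(H) < ∞`. (4) For `r ≥ 3` and every finite
`r`-colourable graph `F` of treewidth at most `w`,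
`c(F) ≤ (w + r) * ((r - 1) (w + 3)) ^ (r - 1) * (r - 1) * c(K_r)`. (5) For `r ≥ 3`, all finite
`r`-colourable graphs `F` satisfy `c(F) < ∞` if and only if `c(K_r) < ∞`. -/
theorem result :
    (∀ (W U : Type) [Fintype W] [Fintype U] (F : SimpleGraph W) (H : SimpleGraph U) (f : F →g H)
      (u₀ : U) (k d : ℕ), Surrounded H d → (∀ w, f w ≠ u₀ → (F.neighborSet w).ncard ≤ k) →
      c F ≤ ((k + d) ^ (Fintype.card U - 1) * d : ℕ) * c H) ∧
    (∀ (W U : Type) [Fintype W] [Fintype U] (F : SimpleGraph W) (H : SimpleGraph U) (_ : F →g H)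
      (w d : ℕ), Surrounded H d → TreewidthLe F w →
      c F ≤ ((w + Fintype.card U) * ((d * (w + 3)) ^ (Fintype.card U - 1) * d) : ℕ) * c H) ∧
    (∀ (U : Type) [Fintype U] (H : SimpleGraph U), TwoConnected H →
      Surrounded H (Fintype.card U - 1) ∧
      ((∀ (W : Type) [Fintype W] (F : SimpleGraph W), Nonempty (F →g H) → c F < ∞) ↔
        c H < ∞)) ∧
    (∀ (W : Type) [Fintype W] (F : SimpleGraph W) (r w : ℕ), 3 ≤ r → F.Colorable r →
      TreewidthLe F w →
      c F ≤ ((w + r) * (((r - 1) * (w + 3)) ^ (r - 1) * (r - 1)) : ℕ) *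
        c (⊤ : SimpleGraph (Fin r))) ∧
    ∀ r, 3 ≤ r → ((∀ (W : Type) [Fintype W] (F : SimpleGraph W), F.Colorable r → c F < ∞) ↔
      c (⊤ : SimpleGraph (Fin r)) < ∞) := by
  have h1 : ∀ (W U : Type) [Fintype W] [Fintype U] (F : SimpleGraph W) (H : SimpleGraph U)
      (f : F →g H) (u₀ : U) (k d : ℕ), Surrounded H d →
      (∀ w, f w ≠ u₀ → (F.neighborSet w).ncard ≤ k) →
      c F ≤ ((k + d) ^ (Fintype.card U - 1) * d : ℕ) * c H := by
    intro W U _ _ F H f u₀ k d hH hF
    exact reduction F H f (fun a b hab => f.map_rel hab) u₀ k d hH hF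
  have h2 : ∀ (W U : Type) [Fintype W] [Fintype U] (F : SimpleGraph W) (H : SimpleGraph U)
      (_ : F →g H) (w d : ℕ), Surrounded H d → TreewidthLe F w →
      c F ≤ ((w + Fintype.card U) * ((d * (w + 3)) ^ (Fintype.card U - 1) * d) : ℕ) * c H := by
    intro W U _ _ F H f w d hH hF
    exact tw_bound F H f w d hH hF
  have h3 : ∀ (U : Type) [Fintype U] (H : SimpleGraph U), TwoConnected H →
      Surrounded H (Fintype.card U - 1) ∧
      ((∀ (W : Type) [Fintype W] (F : SimpleGraph W), Nonempty (F →g H) → c F < ∞) ↔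
        c H < ∞) := by
    intro U _ H hH
    refine ⟨hH.surrounded, ?_, ?_⟩
    · intro h
      exact h U H ⟨SimpleGraph.Hom.id⟩
    · rintro h W _ F ⟨f⟩
      obtain ⟨u₀⟩ := hH.2.1.nonempty
      refine lt_of_le_of_lt (h1 W U F H f u₀ (Nat.card W) (Fintype.card U - 1) hH.surrounded
        (fun w _ => Set.ncard_le_card _)) ?_
      exact ENNReal.mul_lt_top (ENNReal.natCast_lt_top _) h
  refine ⟨h1, h2, h3, ?_, ?_⟩
  · intro W _ F r w hr hcol hF
    obtain ⟨C⟩ := hcol
    have h := h2 W (Fin r) F ⊤ C w (r - 1)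
      (by have := (clique_twoConnected r hr).surrounded; rwa [Fintype.card_fin] at this) hF
    rwa [Fintype.card_fin] at h
  · intro r hr
    exact (h3 (Fin r) ⊤ (clique_twoConnected r hr)).2

end Pool.Agent.Results.MP_349e33_co.ReductionToCliques
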