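import Mathlib
import Pool.Agent.Y388.CF.Transversal

set_option autoImplicit false

/-!
# `c(F)` is at most the maximum degree for `3`-colourable graphs `F`
-/

namespace Pool.Agent.Results.MP_349e33_co.ThreeColourable

open Pool.Agent.TH855 SimpleGraph

/-- (1) Let `F` be a finite graph with an independent set `X` of vertices of degree at most `k ≥ 1`
such that `F - X` is bipartite. Then `c(F) ≤ k`. In particular (2) `c(F) ≤ k` if `F` is
`3`-colourable and all degrees are at most `k`, (3) `c(F) ≤ s + t` if `F` has a proper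
`3`-colouring with `s` and `t` vertices in two of the classes (and arbitrarily many in the third
class), and (4) `3 c(F) ≤ 2 |F|` for every `3`-colourable `F` with at least two vertices. -/
theorem result :
    (∀ (W : Type) [Fintype W] (F : SimpleGraph W) (X : Set W) (k : ℕ), 1 ≤ k →
      (∀ a ∈ X, ∀ b ∈ X, ¬ F.Adj a b) → (F.induce Xᶜ).Colorable 2 →
      (∀ x ∈ X, (F.neighborSet x).ncard ≤ k) → c F ≤ k) ∧
    (∀ (W : Type) [Fintype W] (F : SimpleGraph W) (k : ℕ), 1 ≤ k → F.Colorable 3 →
      (∀ x, (F.neighborSet x).ncard ≤ k) → c F ≤ k) ∧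
    (∀ (W : Type) [Fintype W] (F : SimpleGraph W) (C : F.Coloring (Fin 3)) (s t : ℕ),
      1 ≤ s + t → {w | C w = 1}.ncard ≤ s → {w | C w = 2}.ncard ≤ t → c F ≤ (s + t : ℕ)) ∧
    (∀ (W : Type) [Fintype W] (F : SimpleGraph W), 2 ≤ Fintype.card W → F.Colorable 3 →
      3 * c F ≤ 2 * (Fintype.card W : ℕ)) := by
  have h3 : ∀ (W : Type) [Fintype W] (F : SimpleGraph W) (C : F.Coloring (Fin 3)) (s t : ℕ),
      1 ≤ s + t → {w | C w = 1}.ncard ≤ s → {w | C w = 2}.ncard ≤ t → c F ≤ (s + t : ℕ) := by
    intro W _ F C s t hst hs ht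
    refine Pool.Agent.Y388.CF.three_colourable F C 0 (s + t) hst ?_
    intro x hx
    have hsub : F.neighborSet x ⊆ {w | C w = 1} ∪ {w | C w = 2} := by
      intro y hy
      have h1 : F.Adj x y := hy
      have h2 := C.valid h1
      rw [hx] at h2
      have key : ∀ a : Fin 3, 0 ≠ a → a = 1 ∨ a = 2 := by decide
      exact key _ h2
    exact (Set.ncard_le_ncard hsub (Set.toFinite _)).trans
      ((Set.ncard_union_le _ _).trans (by omega))
  refine ⟨?_, ?_, h3, ?_⟩
  · intro W _ F X k hk hX hb hdeg
    exact Pool.Agent.Y388.CF.bounded_transversal F X k hk (fun a b ha hb' => hX a ha b hb') hb hdeg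
  · intro W _ F k hk hF hdeg
    obtain ⟨C⟩ := hF
    exact Pool.Agent.Y388.CF.three_colourable F C 0 k hk (fun x _ => hdeg x)
  · intro W _ F hW hF
    obtain ⟨C⟩ := hF
    -- permute the colours so that colour `0` is the largest class
    have hcards : {w | C w = 0}.ncard + {w | C w = 1}.ncard + {w | C w = 2}.ncard
        = Fintype.card W := by
      rw [← Set.ncard_union_eq, ← Set.ncard_union_eq, ← Nat.card_eq_fintype_card,
        ← Set.ncard_univ]
      · congr 1
        ext w
        simp only [Set.mem_union, Set.mem_setOf_eq, Set.mem_univ, iff_true]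
        have key : ∀ a : Fin 3, (a = 0 ∨ a = 1) ∨ a = 2 := by decide
        exact key _
      · rw [Set.disjoint_left]
        rintro w hw hw'
        simp only [Set.mem_union, Set.mem_setOf_eq] at hw hw'
        rw [hw'] at hw
        revert hw; decide
      · rw [Set.disjoint_left]
        rintro w hw hw'
        simp only [Set.mem_setOf_eq] at hw hw'
        rw [hw'] at hw
        revert hw; decide
    have main : ∀ D : F.Coloring (Fin 3),
        {w | D w = 0}.ncard + {w | D w = 1}.ncard + {w | D w = 2}.ncard = Fintype.card W →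
        {w | D w = 1}.ncard ≤ {w | D w = 0}.ncard → {w | D w = 2}.ncard ≤ {w | D w = 0}.ncard →
        3 * c F ≤ 2 * (Fintype.card W : ℕ) := by
      intro D hD h1 h2
      by_cases h0 : 1 ≤ {w | D w = 1}.ncard + {w | D w = 2}.ncard
      · have := h3 W F D _ _ h0 le_rfl le_rfl
        have h4 : 3 * ({w | D w = 1}.ncard + {w | D w = 2}.ncard) ≤ 2 * Fintype.card W := by omega
        calc 3 * c F ≤ 3 * (({w | D w = 1}.ncard + {w | D w = 2}.ncard : ℕ) : ENNReal) := by
              gcongr
          _ = ((3 * ({w | D w = 1}.ncard + {w | D w = 2}.ncard) : ℕ) : ENNReal) := by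
              push_cast; ring
          _ ≤ ((2 * Fintype.card W : ℕ) : ENNReal) := by exact_mod_cast h4
          _ = 2 * (Fintype.card W : ℕ) := by push_cast; ring
      · have := h3 W F D 1 0 le_rfl (by omega) (by omega)
        calc 3 * c F ≤ 3 * ((1 + 0 : ℕ) : ENNReal) := by gcongr
          _ = ((3 : ℕ) : ENNReal) := by norm_num
          _ ≤ ((2 * Fintype.card W : ℕ) : ENNReal) := by
              exact_mod_cast (show 3 ≤ 2 * Fintype.card W by omega)
          _ = 2 * (Fintype.card W : ℕ) := by push_cast; ring
    have perm : ∀ (σ : Equiv.Perm (Fin 3)), ∃ D : F.Coloring (Fin 3), ∀ w, D w = σ (C w) := by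
      intro σ
      exact ⟨SimpleGraph.Coloring.mk (fun w => σ (C w))
        (fun {a b} hab h => C.valid hab (σ.injective h)), fun w => rfl⟩
    by_cases hA : {w | C w = 1}.ncard ≤ {w | C w = 0}.ncard ∧
        {w | C w = 2}.ncard ≤ {w | C w = 0}.ncard
    · exact main C hcards hA.1 hA.2
    · by_cases hB : {w | C w = 0}.ncard ≤ {w | C w = 1}.ncard ∧
        {w | C w = 2}.ncard ≤ {w | C w = 1}.ncard
      · obtain ⟨D, hD⟩ := perm (Equiv.swap 0 1)
        have e0 : {w | D w = 0} = {w | C w = 1} := by
          ext w; simp only [Set.mem_setOf_eq, hD]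
          have key : ∀ a : Fin 3, (Equiv.swap 0 1 a = 0) ↔ a = 1 := by decide
          exact key _
        have e1 : {w | D w = 1} = {w | C w = 0} := by
          ext w; simp only [Set.mem_setOf_eq, hD]
          have key : ∀ a : Fin 3, (Equiv.swap 0 1 a = 1) ↔ a = 0 := by decide
          exact key _
        have e2 : {w | D w = 2} = {w | C w = 2} := by
          ext w; simp only [Set.mem_setOf_eq, hD]
          have key : ∀ a : Fin 3, (Equiv.swap 0 1 a = 2) ↔ a = 2 := by decide
          exact key _
        refine main D ?_ ?_ ?_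
        · rw [e0, e1, e2]; omega
        · rw [e0, e1]; exact hB.1
        · rw [e0, e2]; exact hB.2
      · obtain ⟨D, hD⟩ := perm (Equiv.swap 0 2)
        have e0 : {w | D w = 0} = {w | C w = 2} := by
          ext w; simp only [Set.mem_setOf_eq, hD]
          have key : ∀ a : Fin 3, (Equiv.swap 0 2 a = 0) ↔ a = 2 := by decide
          exact key _
        have e1 : {w | D w = 1} = {w | C w = 1} := by
          ext w; simp only [Set.mem_setOf_eq, hD]
          have key : ∀ a : Fin 3, (Equiv.swap 0 2 a = 1) ↔ a = 1 := by decide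
          exact key _
        have e2 : {w | D w = 2} = {w | C w = 0} := by
          ext w; simp only [Set.mem_setOf_eq, hD]
          have key : ∀ a : Fin 3, (Equiv.swap 0 2 a = 2) ↔ a = 0 := by decide
          exact key _
        refine main D ?_ ?_ ?_
        · rw [e0, e1, e2]; omega
        · rw [e0, e1]; omega
        · rw [e0, e2]; omega

end Pool.Agent.Results.MP_349e33_co.ThreeColourable
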