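import Mathlib
import Pool.Agent.Y388.CF.Transversal
import Pool.Agent.TH855.Treewidth

set_option autoImplicit false

/-!
# Uniform bounds for `c(F)` for `3`-colourable graphs of bounded treewidth
-/

namespace Pool.Agent.Results.MP_349e33_co.ThreeColourableTreewidth

open Pool.Agent.TH855 Pool.Agent.Y388.CF SimpleGraph

/-- `Glued F k P`: the vertices and the edges of `F` are covered by finitely many sets
`B 0, …, B (m - 1)` of vertices (the pieces), each with the property `P`, such that every piece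
`B i` with `i > 0` meets the union of the earlier pieces inside one earlier piece `B j`, and either
is contained in `B j` or has at most `k` vertices in common with it. -/
def Glued {W : Type} (F : SimpleGraph W) (k : ℕ) (P : Set W → Prop) : Prop :=
  ∃ (m : ℕ) (B : ℕ → Set W), (∀ w, ∃ i < m, w ∈ B i) ∧
    (∀ a b, F.Adj a b → ∃ i < m, a ∈ B i ∧ b ∈ B i) ∧ (∀ i < m, P (B i)) ∧
    ∀ i < m, 0 < i → ∃ j < i, (∀ l < i, B i ∩ B l ⊆ B j) ∧
      (B i ⊆ B j ∨ (B i ∩ B j).ncard ≤ k)

/-- the colours of the vertices of the host graph -/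
def hcol {L : Type} {s t : ℕ} : Option L ⊕ (Option (Fin s) ⊕ Fin t) → Fin 3
  | Sum.inl _ => 0
  | Sum.inr (Sum.inl _) => 1
  | Sum.inr (Sum.inr _) => 2

/-- the host graph: complete tripartite with classes `Option L`, `Option (Fin s)` and `Fin t` -/
def host (L : Type) (s t : ℕ) : SimpleGraph (Option L ⊕ (Option (Fin s) ⊕ Fin t)) where
  Adj u v := hcol u ≠ hcol v
  symm := ⟨fun _ _ h => h.symm⟩
  loopless := ⟨fun _ h => h rfl⟩

theorem host_adj (L : Type) (s t : ℕ) (u v : Option L ⊕ (Option (Fin s) ⊕ Fin t)) :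
    (host L s t).Adj u v ↔ hcol u ≠ hcol v := Iff.rfl

theorem c_host (L : Type) [Fintype L] (s t : ℕ) : c (host L s t) ≤ (s + t + 1 : ℕ) := by
  refine three_colourable (host L s t) (SimpleGraph.Coloring.mk hcol (fun {a b} h => h)) 0
    (s + t + 1) (by omega) ?_
  intro x hx
  have hx' : hcol x = 0 := hx
  have hsub : (host L s t).neighborSet x ⊆ Set.range (Sum.inr : Option (Fin s) ⊕ Fin t →
      Option L ⊕ (Option (Fin s) ⊕ Fin t)) := by
    rintro (y | y) hy
    · have h1 : hcol x ≠ hcol (Sum.inl y : Option L ⊕ (Option (Fin s) ⊕ Fin t)) := hy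
      rw [hx'] at h1
      exact absurd rfl h1
    · exact ⟨y, rfl⟩
  refine (Set.ncard_le_ncard hsub (Set.toFinite _)).trans ?_
  rw [← Set.image_univ, Set.ncard_image_of_injective _ Sum.inr_injective, Set.ncard_univ,
    Nat.card_eq_fintype_card]
  simp only [Fintype.card_sum, Fintype.card_option, Fintype.card_fin]
  omega

theorem glued_bound {W : Type} [Fintype W] (F : SimpleGraph W) (C : F.Coloring (Fin 3))
    (k s t : ℕ) (hs : 1 ≤ s) (ht : 1 ≤ t)
    (hF : Glued F k (fun B => (B ∩ {w | C w = 1}).ncard ≤ s ∧ (B ∩ {w | C w = 2}).ncard ≤ t)) :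
    c F ≤ ((k + 2) * (s + t + 1) : ℕ) := by
  classical
  obtain ⟨m, B, hcov, hedge, hP, hglue⟩ := hF
  rcases isEmpty_or_nonempty W with hW | ⟨⟨w0⟩⟩
  · refine (c_empty F).trans ?_
    exact_mod_cast (show 1 ≤ (k + 2) * (s + t + 1) by nlinarith)
  have hm : 0 < m := by
    obtain ⟨i, hi, _⟩ := hcov w0
    omega
  obtain ⟨s', rfl⟩ : ∃ s', s = s' + 1 := ⟨s - 1, by omega⟩
  obtain ⟨t', rfl⟩ : ∃ t', t = t' + 1 := ⟨t - 1, by omega⟩
  -- labels of the vertices of the colours 1 and 2
  have lab : ∀ (q : Fin 3) (r : ℕ), (∀ i < m, (B i ∩ {w | C w = q}).ncard ≤ r + 1) →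
      ∃ π : W → Fin (r + 1), ∀ i < m, Set.InjOn π (B i ∩ {w | C w = q}) := by
    intro q r hr
    have h1 := tree_colour r m (fun i => if i < m then B i ∩ {w | C w = q} else ∅)
      (by
        intro i
        by_cases hi : i < m
        · simp only [if_pos hi]; exact hr i hi
        · simp only [if_neg hi]; simp)
      (by
        intro n hn hn0
        obtain ⟨j, hj, h2, -⟩ := hglue n hn hn0
        refine ⟨j, hj, ?_⟩
        intro l hl
        rw [if_pos hn, if_pos (hl.trans hn), if_pos (hj.trans hn)]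
        rintro w ⟨⟨hw1, hw2⟩, ⟨hw3, -⟩⟩
        exact ⟨h2 l hl ⟨hw1, hw3⟩, hw2⟩)
    obtain ⟨π, hπ⟩ := h1
    refine ⟨π, fun i hi => ?_⟩
    have := hπ i hi
    rwa [if_pos hi] at this
  obtain ⟨π1, hπ1⟩ := lab 1 s' (fun i hi => (hP i hi).1)
  obtain ⟨π2, hπ2⟩ := lab 2 t' (fun i hi => (hP i hi).2)
  set π : W → Option W ⊕ (Option (Fin (s' + 1)) ⊕ Fin (t' + 1)) := fun w =>
    if C w = 0 then Sum.inl (some w) else if C w = 1 then Sum.inr (Sum.inl (some (π1 w)))
      else Sum.inr (Sum.inr (π2 w)) with hπdef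
  have key3 : ∀ a : Fin 3, a = 0 ∨ a = 1 ∨ a = 2 := by decide
  have e0 : ∀ w, C w = 0 → π w = Sum.inl (some w) := fun w h => by
    simp only [hπdef, if_pos h]
  have e1 : ∀ w, C w = 1 → π w = Sum.inr (Sum.inl (some (π1 w))) := fun w h => by
    simp only [hπdef]
    rw [if_neg (by rw [h]; decide), if_pos h]
  have e2 : ∀ w, C w = 2 → π w = Sum.inr (Sum.inr (π2 w)) := fun w h => by
    simp only [hπdef]
    rw [if_neg (by rw [h]; decide), if_neg (by rw [h]; decide)]
  have ecol : ∀ w, hcol (π w) = C w := by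
    intro w
    rcases key3 (C w) with h | h | h
    · rw [e0 w h, h]; rfl
    · rw [e1 w h, h]; rfl
    · rw [e2 w h, h]; rfl
  set u₀ : Option W ⊕ (Option (Fin (s' + 1)) ⊕ Fin (t' + 1)) := Sum.inl none with hu0
  set u₁ : Option W ⊕ (Option (Fin (s' + 1)) ⊕ Fin (t' + 1)) := Sum.inr (Sum.inl none) with hu1
  have hc0 : hcol u₀ = 0 := rfl
  have hc1 : hcol u₁ = 1 := rfl
  have h01 : (host W (s' + 1) (t' + 1)).Adj u₀ u₁ := by
    rw [host_adj, hc0, hc1]; decide
  have hdom : ∀ u, (host W (s' + 1) (t' + 1)).Adj u₀ u ∨ (host W (s' + 1) (t' + 1)).Adj u₁ u := by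
    intro u
    simp only [host_adj, hc0, hc1]
    have key : ∀ a : Fin 3, 0 ≠ a ∨ 1 ≠ a := by decide
    exact key _
  have hconn : (host W (s' + 1) (t' + 1)).Connected := by
    rw [SimpleGraph.connected_iff_exists_forall_reachable]
    refine ⟨u₀, fun z => ?_⟩
    rcases hdom z with h | h
    · exact h.reachable
    · exact h01.reachable.trans h.reachable
  have htg := treeGlued_add F (host W (s' + 1) (t' + 1)) k u₀ u₁ h01 hdom π
    (by
      intro w
      rcases key3 (C w) with h | h | h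
      · rw [e0 w h]; simp [hu0]
      · rw [e1 w h]; simp [hu0]
      · rw [e2 w h]; simp [hu0])
    (by
      intro w
      rcases key3 (C w) with h | h | h
      · rw [e0 w h]; simp [hu1]
      · rw [e1 w h]; simp [hu1]
      · rw [e2 w h]; simp [hu1])
    m B hm
    (by
      intro a b hab
      rw [host_adj, ecol, ecol]
      exact C.valid hab)
    hcov hedge
    (by
      intro i hi a ha b hb hab
      have hC : C a = C b := by rw [← ecol a, ← ecol b, hab]
      rcases key3 (C a) with h | h | h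
      · rw [e0 a h, e0 b (hC ▸ h)] at hab
        simpa using hab
      · have h' : C b = 1 := hC ▸ h
        rw [e1 a h, e1 b h'] at hab
        have h5 : π1 a = π1 b := by simpa using hab
        exact hπ1 i hi ⟨ha, h⟩ ⟨hb, h'⟩ h5
      · have h' : C b = 2 := hC ▸ h
        rw [e2 a h, e2 b h'] at hab
        have h5 : π2 a = π2 b := by simpa using hab
        exact hπ2 i hi ⟨ha, h⟩ ⟨hb, h'⟩ h5)
    hglue
  have hcardU : 1 < Fintype.card (Option W ⊕ (Option (Fin (s' + 1)) ⊕ Fin (t' + 1))) := by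
    simp only [Fintype.card_sum, Fintype.card_option, Fintype.card_fin]
    omega
  have h1 := c_le_of_add F (host W (s' + 1) (t' + 1)) (k + 2) hconn htg (by omega) hcardU
  refine h1.trans ?_
  calc ((k + 2 : ℕ) : ENNReal) * c (host W (s' + 1) (t' + 1))
      ≤ ((k + 2 : ℕ) : ENNReal) * ((s' + 1 + (t' + 1) + 1 : ℕ) : ENNReal) := by
        gcongr
        exact c_host W (s' + 1) (t' + 1)
    _ = (((k + 2) * (s' + 1 + (t' + 1) + 1) : ℕ) : ENNReal) := by push_cast; ring

/-- (1) Let `F` be a finite graph with a proper `3`-colouring which is composed in a tree-like way,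
along sets of at most `k` vertices, of pieces with at most `s` vertices of the second colour and at
most `t` vertices of the third colour (and arbitrarily many vertices of the first colour). Then
`c(F) ≤ (k + 2)(s + t + 1)`. (2) If `F` is `3`-colourable and has treewidth at most `w`, then
`c(F) ≤ (w + 2)(2 w + 3)`. -/
theorem result :
    (∀ (W : Type) [Fintype W] (F : SimpleGraph W) (C : F.Coloring (Fin 3)) (k s t : ℕ),
      1 ≤ s → 1 ≤ t →
      Glued F k (fun B => (B ∩ {w | C w = 1}).ncard ≤ s ∧ (B ∩ {w | C w = 2}).ncard ≤ t) →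
      c F ≤ ((k + 2) * (s + t + 1) : ℕ)) ∧
    (∀ (W : Type) [Fintype W] (F : SimpleGraph W) (w : ℕ), F.Colorable 3 → TreewidthLe F w →
      c F ≤ ((w + 2) * (2 * w + 3) : ℕ)) := by
  refine ⟨fun W _ F C k s t hs ht h => glued_bound F C k s t hs ht h, ?_⟩
  intro W _ F r hcol htw
  classical
  obtain ⟨C⟩ := hcol
  obtain ⟨I, _, T, B, hT, hcard, hedge, hconn⟩ := htw
  obtain ⟨e, he, hord⟩ := tree_order T hT B (fun w => (hconn w).preconnected)
  have hG : Glued F r (fun B => (B ∩ {w | C w = 1}).ncard ≤ r + 1 ∧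
      (B ∩ {w | C w = 2}).ncard ≤ r + 1) := by
    refine ⟨Fintype.card I, fun n => B (e n), ?_, ?_, ?_, ?_⟩
    · intro w
      obtain ⟨i, hi⟩ := (hconn w).nonempty
      obtain ⟨n, hn, hni⟩ := he i
      exact ⟨n, hn, by show w ∈ B (e n); rw [hni]; exact hi⟩
    · intro a b hab
      obtain ⟨i, hi⟩ := hedge a b hab
      obtain ⟨n, hn, hni⟩ := he i
      exact ⟨n, hn, by show a ∈ B (e n) ∧ b ∈ B (e n); rw [hni]; exact hi⟩
    · intro i hi
      exact ⟨(Set.ncard_le_ncard Set.inter_subset_left (Set.toFinite _)).trans (hcard _),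
        (Set.ncard_le_ncard Set.inter_subset_left (Set.toFinite _)).trans (hcard _)⟩
    · intro i hi hi0
      obtain ⟨j, hj, h1⟩ := hord i hi hi0
      refine ⟨j, hj, h1, ?_⟩
      by_cases h2 : (B (e i) ∩ B (e j)).ncard ≤ r
      · exact Or.inr h2
      · left
        have h3 : B (e i) ∩ B (e j) = B (e i) :=
          Set.eq_of_subset_of_ncard_le Set.inter_subset_left
            ((hcard (e i)).trans (by omega)) (Set.toFinite _)
        show B (e i) ⊆ B (e j)
        rw [← h3]
        exact Set.inter_subset_right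
  have := glued_bound F C r (r + 1) (r + 1) (by omega) (by omega) hG
  refine this.trans (le_of_eq ?_)
  congr 1
  ring

end Pool.Agent.Results.MP_349e33_co.ThreeColourableTreewidth
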